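import Pool.Agent.T9h5.GG.Spec2
import Pool.Agent.T9h5.GG.Lem
import Pool.Agent.T9h89.GF.End

/-!
# The endgame for `Ar A Z`
-/

set_option autoImplicit false
set_option linter.unusedSectionVars false

namespace Pool.Agent.T9h89.GG

open Finset H39Gon
open Pool.Agent.T9h42.GF (Comb Pol1 Pol2 dl dl2 Dl)
open Pool.Agent.T9h89.GF (cl_mul cl_one SM sn zv comb_hyp all_zero dl2_zero')
open Pool.Agent.T9h5.GG

section C

variable {A K : Type} [CommRing A] [IsDomain A] [Field K] [Algebra A K] [IsFractionRing A K]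

theorem am_ne {a : A} (ha : a ≠ 0) : algebraMap A K a ≠ 0 := by
  intro h
  exact ha ((IsFractionRing.injective A K) (by rw [h, map_zero]))

theorem pc_mul {a b : A} (ha : a ≠ 0) (hb : b ≠ 0) : pc K (a * b) = pc K a + pc K b := by
  unfold pc
  rw [map_mul, cl_mul (am_ne ha) (am_ne hb)]

theorem pc_one : pc K (1 : A) = 0 := by
  unfold pc
  rw [map_one, cl_one]

theorem pc_pow {a : A} (ha : a ≠ 0) (n : ℕ) : pc K (a ^ n) = n • pc K a := by
  induction n with
  | zero => rw [pow_zero, pc_one, zero_smul]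
  | succ n ih => rw [pow_succ, pc_mul (pow_ne_zero _ ha) ha, ih, succ_nsmul]

theorem pc_prod {ι : Type} (s : Finset ι) (f : ι → A) (hf : ∀ i ∈ s, f i ≠ 0) :
    pc K (∏ i ∈ s, f i) = ∑ i ∈ s, pc K (f i) := by
  classical
  induction s using Finset.induction_on with
  | empty => rw [Finset.prod_empty, Finset.sum_empty, pc_one]
  | insert a s ha ih =>
    rw [Finset.prod_insert ha, Finset.sum_insert ha, pc_mul (hf a (mem_insert_self _ _))
      (Finset.prod_ne_zero_iff.2 fun i hi => hf i (mem_insert_of_mem hi)),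
      ih fun i hi => hf i (mem_insert_of_mem hi)]

end C

section M

variable {A Z : Type} [CommRing A] [IsDomain A] (S : Ar A Z)

theorem mon_prod {ι : Type} (s : Finset ι) (f : ι → A) (hf : ∀ i ∈ s, S.mon (f i)) :
    S.mon (∏ i ∈ s, f i) := by
  classical
  induction s using Finset.induction_on with
  | empty => rw [Finset.prod_empty]; exact S.mon_one
  | insert a s ha ih =>
    rw [Finset.prod_insert ha]
    exact S.mon_mul _ _ (hf a (mem_insert_self _ _)) (ih fun i hi => hf i (mem_insert_of_mem hi))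

theorem mon_pow' {x : A} (hx : S.mon x) (n : ℕ) : S.mon (x ^ n) := by
  induction n with
  | zero => rw [pow_zero]; exact S.mon_one
  | succ n ih => rw [pow_succ]; exact S.mon_mul _ _ ih hx

end M

/-- the elements `σ_z` -/
structure Sg {A Z : Type} [CommRing A] (S : Ar A Z) (σ : Z → A) (N : Z → ℕ) : Prop where
  pos : ∀ z, 0 < N z
  mon : ∀ z, S.mon (σ z)
  dv : ∀ z, S.dv (σ z) = Finsupp.single z (N z)

section G

variable {A Z : Type} [CommRing A] [IsDomain A] {S : Ar A Z} {σ : Z → A} {N : Z → ℕ}

theorem Sg.ne (h : Sg S σ N) (z : Z) : σ z ≠ 0 := S.mon_ne _ (h.mon z)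

theorem Sg.ht_pos (h : Sg S σ N) (z : Z) : 0 < S.ht (σ z) := by
  rw [Nat.pos_iff_ne_zero]
  intro h0
  have h1 := (S.ht_unit (h.ne z)).1 h0
  rw [h.dv z, Finsupp.single_eq_zero] at h1
  exact (h.pos z).ne' h1

theorem Sg.coprime (h : Sg S σ N) (hC : CopIff) {z v : Z} (hzv : z ≠ v) :
    IsCoprime (σ z) (σ v) := by
  classical
  rw [hC A Z S _ _ (h.ne z) (h.ne v)]
  intro y
  rw [h.dv z, h.dv v, Finsupp.single_apply, Finsupp.single_apply]
  by_cases h1 : z = y
  · right
    rw [if_neg]
    rintro rfl
    exact hzv h1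
  · left
    rw [if_neg h1]

/-- an additive map to the rationals which vanishes on the `σ_z` vanishes -/
theorem hom_zero {K : Type} [Field K] [Algebra A K] [IsFractionRing A K] (h : Sg S σ N)
    (hu : ∀ u : A, u ≠ 0 → S.dv u = 0 → ∃ n, 0 < n ∧ u ^ n = 1)
    (φ : UV K →+ ℚ) (hφ : ∀ z, φ (pc K (σ z)) = 0) : φ = 0 := by
  classical
  have h1 : ∀ u : A, u ≠ 0 → S.dv u = 0 → φ (pc K u) = 0 := by
    intro u hu0 hu1
    obtain ⟨n, hn, hun⟩ := hu u hu0 hu1
    have h2 : n • pc K u = 0 := by rw [← pc_pow hu0, hun, pc_one]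
    have h3 := congrArg φ h2
    rw [map_nsmul, map_zero, nsmul_eq_mul] at h3
    exact (mul_eq_zero.1 h3).resolve_left (by exact_mod_cast hn.ne')
  have h2 : ∀ a : A, a ≠ 0 → φ (pc K a) = 0 := by
    intro a ha
    set T : Finset Z := (S.dv a).support with hT
    set n : ℕ := ∏ z ∈ T, N z with hn
    have hn0 : 0 < n := Finset.prod_pos fun z _ => h.pos z
    set b : A := ∏ z ∈ T, σ z ^ ((n / N z) * S.dv a z) with hb
    have hb0 : b ≠ 0 := Finset.prod_ne_zero_iff.2 fun z _ => pow_ne_zero _ (h.ne z)
    have hdv : S.dv b = S.dv (a ^ n) := by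
      rw [hb, S.dv_prod _ _ fun z _ => pow_ne_zero _ (h.ne z), S.dv_pow ha]
      ext v
      rw [Finsupp.finsetSum_apply, Finsupp.smul_apply]
      have h3 : ∀ z ∈ T, (S.dv (σ z ^ ((n / N z) * S.dv a z))) v =
          if z = v then n * S.dv a v else 0 := by
        intro z hz
        rw [S.dv_pow (h.ne z), h.dv z, Finsupp.smul_apply, Finsupp.single_apply]
        split_ifs with h4
        · subst h4
          have h5 : N z ∣ n := Finset.dvd_prod_of_mem _ hz
          rw [smul_eq_mul]
          calc n / N z * S.dv a z * N z = n / N z * N z * S.dv a z := by ring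
            _ = n * S.dv a z := by rw [Nat.div_mul_cancel h5]
        · rw [smul_zero]
      rw [Finset.sum_congr rfl h3, Finset.sum_ite_eq']
      split_ifs with h4
      · rfl
      · rw [hT, Finsupp.notMem_support_iff] at h4
        rw [h4, smul_zero]
    have hd1 : b ∣ a ^ n := S.dvd_of_le _ _ hb0 (pow_ne_zero _ ha) hdv.le
    obtain ⟨u, hu2⟩ := hd1
    have hu0 : u ≠ 0 := by
      rintro rfl
      rw [mul_zero] at hu2
      exact pow_ne_zero _ ha hu2
    have hu3 : S.dv u = 0 := by
      rw [hu2, S.dv_mul _ _ hb0 hu0] at hdv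
      exact left_eq_add.1 hdv
    have h4 : n • pc K a = (∑ z ∈ T, ((n / N z) * S.dv a z) • pc K (σ z)) + pc K u := by
      rw [← pc_pow ha, hu2, pc_mul hb0 hu0, hb, pc_prod _ _ fun z _ => pow_ne_zero _ (h.ne z)]
      congr 1
      exact Finset.sum_congr rfl fun z _ => pc_pow (h.ne z) _
    have h5 := congrArg φ h4
    rw [map_nsmul, map_add, map_sum, h1 u hu0 hu3, add_zero, nsmul_eq_mul] at h5
    rw [Finset.sum_eq_zero fun z _ => by rw [map_nsmul, hφ z, smul_zero]] at h5
    exact (mul_eq_zero.1 h5).resolve_left (by exact_mod_cast hn0.ne')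
  refine AddMonoidHom.ext fun v => ?_
  set f : K := ((Additive.toMul v : Kˣ) : K) with hf
  have hf0 : f ≠ 0 := (Additive.toMul v).ne_zero
  have hv : v = cl f := by
    unfold cl
    rw [dif_neg hf0]
    apply Additive.toMul.injective
    exact Units.ext rfl
  obtain ⟨x, y, hy, hxy⟩ := IsFractionRing.div_surjective (A := A) f
  have hy0 : y ≠ 0 := nonZeroDivisors.ne_zero hy
  have hx0 : x ≠ 0 := by
    rintro rfl
    rw [map_zero, zero_div] at hxy
    exact hf0 hxy.symm
  have h3 : cl f + pc K y = pc K x := by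
    have h4 : f * algebraMap A K y = algebraMap A K x := by
      rw [← hxy, div_mul_cancel₀ _ (am_ne hy0)]
    unfold pc
    rw [← h4, cl_mul hf0 (am_ne hy0)]
  have h4 := congrArg φ h3
  rw [map_add, h2 _ hy0, h2 _ hx0, add_zero] at h4
  rw [hv, h4]
  rfl

end G

section E

variable {A Z : Type} [CommRing A] [IsDomain A] (S : Ar A Z) (σ : Z → A) (N : Z → ℕ)

/-- the items -/
abbrev Itm (Z : Type) : Type := (Z × Z) ⊕ Z

/-- factors of `α` -/
noncomputable def αt : Itm Z → Bool → A
  | .inl p, b => σ p.1 * σ p.2 * (if b then σ p.1 ^ S.ht (σ p.2) else σ p.2 ^ S.ht (σ p.1))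
  | .inr _, _ => 1

/-- factors of `β` -/
noncomputable def βt : Itm Z → Bool → A
  | .inl _, _ => 1
  | .inr v, b => if b then σ v else σ v ^ 2

/-- the class of `σ_z` -/
noncomputable def ek (K : Type) [Field K] [Algebra A K] (z : Z) : UV K := pc K (σ z)

/-- the height -/
noncomputable def dk (z : Z) : ℕ := S.ht (σ z)

/-- the vectors -/
noncomputable def zt (K : Type) [Field K] [Algebra A K] : Itm Z → UV K × UV K
  | .inl p => (zv (ek σ K) (dk S σ) p, 0)
  | .inr v => (ek σ K v, ek σ K v)

variable {S σ N}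

theorem dk_ne (h : Sg S σ N) (z : Z) : dk S σ z ≠ 0 := (h.ht_pos z).ne'

theorem αt_mon (h : Sg S σ N) (t : Itm Z) (b : Bool) : S.mon (αt S σ t b) := by
  rcases t with p | v
  · simp only [αt]
    refine S.mon_mul _ _ (S.mon_mul _ _ (h.mon _) (h.mon _)) ?_
    split_ifs
    · exact mon_pow' S (h.mon _) _
    · exact mon_pow' S (h.mon _) _
  · exact S.mon_one

theorem βt_mon (h : Sg S σ N) (t : Itm Z) (b : Bool) : S.mon (βt σ t b) := by
  rcases t with p | v
  · exact S.mon_one
  · simp only [βt]
    split_ifs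
    · exact h.mon _
    · exact mon_pow' S (h.mon _) _

theorem αt_ne (h : Sg S σ N) (t : Itm Z) (b : Bool) : αt S σ t b ≠ 0 := S.mon_ne _ (αt_mon h t b)

theorem βt_ne (h : Sg S σ N) (t : Itm Z) (b : Bool) : βt σ t b ≠ 0 := S.mon_ne _ (βt_mon h t b)

theorem αt_ht (h : Sg S σ N) (t : Itm Z) (b : Bool) :
    S.ht (αt S σ t b) = S.ht (αt S σ t true) := by
  rcases t with p | v
  · cases b
    · simp only [αt, if_true, Bool.false_eq_true, if_false]
      rw [S.ht_mul (mul_ne_zero (h.ne _) (h.ne _)) (pow_ne_zero _ (h.ne _)),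
        S.ht_mul (mul_ne_zero (h.ne _) (h.ne _)) (pow_ne_zero _ (h.ne _)),
        S.ht_pow (h.ne _), S.ht_pow (h.ne _), mul_comm (S.ht (σ p.1)) (S.ht (σ p.2))]
    · rfl
  · rfl

variable {K : Type} [Field K] [Algebra A K] [IsFractionRing A K]

theorem pc_rel1 (h : Sg S σ N) (t : Itm Z) (b : Bool) : (pc K (αt S σ t b) - pc K (βt σ t b)) -
    (pc K (αt S σ t false) - pc K (βt σ t false)) = if b then (zt S σ K t).1 else 0 := by
  rcases t with p | v
  · cases b
    · simp
    · have h1 : σ p.1 ≠ 0 := h.ne _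
      have h2 : σ p.2 ≠ 0 := h.ne _
      simp only [αt, βt, zt, zv, ek, dk, if_true, Bool.false_eq_true, if_false]
      rw [pc_mul (mul_ne_zero h1 h2) (pow_ne_zero _ h1), pc_mul (mul_ne_zero h1 h2)
        (pow_ne_zero _ h2), pc_pow h1, pc_pow h2]
      abel
  · cases b
    · simp
    · simp only [αt, βt, zt, ek, if_true, Bool.false_eq_true, if_false]
      rw [pc_pow (h.ne v), two_nsmul]
      abel

theorem pc_rel2 (h : Sg S σ N) (t : Itm Z) (b : Bool) : pc K (βt σ t false) - pc K (βt σ t b) =
    if b then (zt S σ K t).2 else 0 := by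
  rcases t with p | v
  · cases b <;> simp [βt, zt]
  · cases b
    · simp
    · simp only [βt, zt, ek, if_true, Bool.false_eq_true, if_false]
      rw [pc_pow (h.ne v), two_nsmul]
      abel

variable (σ) in
/-- the primes of an item -/
def Kt (x : A) : Itm Z → Prop
  | .inl p => IsCoprime x (σ p.1) ∧ IsCoprime x (σ p.2)
  | .inr v => IsCoprime x (σ v)

theorem cop_iff (h : Sg S σ N) (x : A) (t : Itm Z) (b : Bool) :
    (IsCoprime x (αt S σ t b) ∧ IsCoprime x (βt σ t b)) ↔ Kt σ x t := by
  rcases t with p | v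
  · simp only [αt, βt, Kt, isCoprime_one_right, and_true]
    cases b
    · simp only [Bool.false_eq_true, if_false, IsCoprime.mul_right_iff,
        IsCoprime.pow_right_iff (h.ht_pos p.1)]
      tauto
    · simp only [if_true, IsCoprime.mul_right_iff,
        IsCoprime.pow_right_iff (h.ht_pos p.2)]
      tauto
  · simp only [αt, βt, Kt, isCoprime_one_right, true_and]
    cases b
    · simp only [Bool.false_eq_true, if_false, IsCoprime.pow_right_iff (Nat.succ_pos 1)]
    · simp only [if_true]

end E

theorem endGame : EndGame := by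
  classical
  intro hComb _ _ hCop hPr hTP A Z K _ _ _ _ _ S m Q hQ w0 v0
  obtain ⟨hunit, hsig, hinf, hfin⟩ := hPr A Z S
  choose σ N hN using hsig
  have hσ : Sg S σ N := ⟨fun z => (hN z).1, fun z => (hN z).2.1, fun z => (hN z).2.2⟩
  obtain ⟨w, hw⟩ := hTP A Z K S m
  refine all_zero Q (ek σ K) (fun φ hφ => hom_zero hσ hunit φ hφ) ?_ w0 v0
  have hs : ∀ (M : Multiset Z) (v : Z), M.card = m + 1 → sn Q (ek σ K) (dk S σ) M v = 0 := by
    refine hComb Z m (sn Q (ek σ K) (dk S σ)) ?_
    intro P N' hPN hN' hdis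
    -- the items
    set L0 : List (Itm Z) := P.map Sum.inl ++ N'.toList.map Sum.inr with hL0
    have hlen : L0.length = m + 2 := by
      rw [hL0, List.length_append, List.length_map, List.length_map, Multiset.length_toList, hPN]
    -- the background
    set occ : Z → Prop := fun z => (∃ p ∈ P, z = p.1 ∨ z = p.2) ∨ z ∈ N' with hocc
    set T : Finset Z := (hfin w).toFinset.filter (fun z => ¬ occ z) with hT
    set bg : A := ∏ z ∈ T, σ z with hbg
    have hbgm : S.mon bg := mon_prod S _ _ fun z _ => hσ.mon z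
    have hbg0 : bg ≠ 0 := S.mon_ne _ hbgm
    set α : (Fin L0.length → Bool) → A := fun ε => bg * ∏ i, αt S σ (L0.get i) (ε i) with hα
    set β : (Fin L0.length → Bool) → A := fun ε => ∏ i, βt σ (L0.get i) (ε i) with hβ
    have hm1 : ∀ ε : Fin L0.length → Bool, S.mon (∏ i, αt S σ (L0.get i) (ε i)) := fun ε =>
      mon_prod S _ _ fun i _ => αt_mon hσ _ _
    have hm2 : ∀ ε, S.mon (β ε) := fun ε => mon_prod S _ _ fun i _ => βt_mon hσ _ _
    have hm1' : ∀ ε : Fin L0.length → Bool, ∏ i, αt S σ (L0.get i) (ε i) ≠ 0 := fun ε =>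
      S.mon_ne _ (hm1 ε)
    have hmem : ∀ i : Fin L0.length, (∃ p ∈ P, L0.get i = Sum.inl p) ∨
        (∃ v ∈ N', L0.get i = Sum.inr v) := by
      intro i
      have h0 : ∀ t ∈ L0, (∃ p ∈ P, Sum.inl p = t) ∨ (∃ v ∈ N'.toList, Sum.inr v = t) := by
        intro t ht
        rwa [hL0, List.mem_append, List.mem_map, List.mem_map] at ht
      have h1 := h0 _ (List.get_mem L0 i)
      rcases h1 with ⟨p, hp, h⟩ | ⟨v, hv, h⟩
      · exact .inl ⟨p, hp, h.symm⟩
      · exact .inr ⟨v, Multiset.mem_toList.1 hv, h.symm⟩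
    have hTPi := hw Q hQ (Fin L0.length → Bool) α β (S.ht (α (fun _ => true))) (by
      rw [Fintype.card_fun, Fintype.card_bool, Fintype.card_fin, hlen]) ?_ ?_ ?_
    · obtain ⟨a, b, c, _, _, _, hz⟩ := hTPi
      refine comb_hyp Q (ek σ K) (dk S σ) (dk_ne hσ) P N' hPN
        (pc K a + pc K bg - pc K b +
          ∑ i, (pc K (αt S σ (L0.get i) false) - pc K (βt σ (L0.get i) false)))
        (pc K c - pc K b - ∑ i, pc K (βt σ (L0.get i) false)) ?_
      have hlist : P.map (fun p => (zv (ek σ K) (dk S σ) p, (0 : UV K))) ++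
          N'.toList.map (fun v => (ek σ K v, ek σ K v)) = L0.map (zt S σ K) := by
        rw [hL0, List.map_append, List.map_map, List.map_map]; rfl
      rw [hlist]
      refine dl2_zero' (zt S σ K) _ L0 _ _ fun ε => ?_
      have h1 : pc K (α ε) = pc K bg + ∑ i, pc K (αt S σ (L0.get i) (ε i)) := by
        rw [hα]
        simp only
        rw [pc_mul hbg0 (hm1' ε), pc_prod _ _ fun i _ => αt_ne hσ _ _]
      have h2 : pc K (β ε) = ∑ i, pc K (βt σ (L0.get i) (ε i)) := by
        rw [hβ]
        simp only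
        rw [pc_prod _ _ fun i _ => βt_ne hσ _ _]
      have h3 : pc K a + pc K bg - pc K b +
          ∑ i, (pc K (αt S σ (L0.get i) false) - pc K (βt σ (L0.get i) false)) +
          ∑ i, (if ε i then (zt S σ K (L0.get i)).1 else 0) =
          pc K a + pc K (α ε) - pc K b - pc K (β ε) := by
        rw [Finset.sum_congr rfl fun i _ => (pc_rel1 hσ (L0.get i) (ε i)).symm, h1, h2]
        simp only [Finset.sum_sub_distrib]
        abel
      have h4 : pc K c - pc K b - ∑ i, pc K (βt σ (L0.get i) false) +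
          ∑ i, (if ε i then (zt S σ K (L0.get i)).2 else 0) = pc K c - pc K b - pc K (β ε) := by
        rw [Finset.sum_congr rfl fun i _ => (pc_rel2 hσ (L0.get i) (ε i)).symm, h2]
        simp only [Finset.sum_sub_distrib]
        abel
      rw [h3, h4]
      exact hz ε
    · intro ε
      refine ⟨S.mon_mul _ _ hbgm (hm1 ε), hm2 ε, ?_, ?_⟩
      · -- coprime
        refine IsCoprime.mul_left ?_ ?_
        · refine IsCoprime.prod_left fun z hz => IsCoprime.prod_right fun i _ => ?_
          have hz' : ¬ occ z := (mem_filter.1 hz).2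
          rcases hmem i with ⟨p, hp, h⟩ | ⟨v, hv, h⟩
          · rw [h]; exact isCoprime_one_right
          · rw [h]
            have hzv : z ≠ v := fun h => hz' (.inr (h ▸ hv))
            have h1 := hσ.coprime hCop hzv
            simp only [βt]
            split_ifs
            · exact h1
            · exact h1.pow_right
        · refine IsCoprime.prod_left fun j _ => IsCoprime.prod_right fun i _ => ?_
          rcases hmem i with ⟨p, hp, h⟩ | ⟨v, hv, h⟩
          · rw [h]; exact isCoprime_one_right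
          · rcases hmem j with ⟨p, hp, h'⟩ | ⟨v', hv', h'⟩
            · rw [h, h']
              have hd := hdis p hp
              have h1 : IsCoprime (σ p.1) (σ v) := hσ.coprime hCop fun h => hd.1 (h ▸ hv)
              have h2 : IsCoprime (σ p.2) (σ v) := hσ.coprime hCop fun h => hd.2 (h ▸ hv)
              have h3 : IsCoprime (αt S σ (Sum.inl p) (ε j)) (σ v) := by
                simp only [αt]
                split_ifs
                · exact (h1.mul_left h2).mul_left h1.pow_left
                · exact (h1.mul_left h2).mul_left h2.pow_left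
              simp only [βt]
              split_ifs
              · exact h3
              · exact h3.pow_right
            · rw [h']; exact isCoprime_one_left
      · -- height
        show S.ht (bg * ∏ i, αt S σ (L0.get i) (ε i)) =
          S.ht (bg * ∏ i, αt S σ (L0.get i) true)
        rw [S.ht_mul hbg0 (hm1' ε), S.ht_mul hbg0 (hm1' fun _ => true),
          S.ht_prod _ _ fun i _ => αt_ne hσ _ _, S.ht_prod _ _ fun i _ => αt_ne hσ _ _]
        congr 1
        exact Finset.sum_congr rfl fun i _ => αt_ht hσ _ _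
    · intro ε z hdz
      have hab : α ε * β ε ≠ 0 := mul_ne_zero (mul_ne_zero hbg0 (hm1' ε)) (S.mon_ne _ (hm2 ε))
      have key : σ z ∣ α ε * β ε → S.dv (α ε * β ε) z ≠ 0 := by
        intro hd
        have h1 := S.dv_le_of_dvd hab hd z
        rw [hσ.dv z, Finsupp.single_eq_same] at h1
        exact (lt_of_lt_of_le (hσ.pos z) h1).ne'
      apply key
      by_cases ho : occ z
      · rcases ho with ⟨p, hp, h⟩ | h
        · obtain ⟨i, hi⟩ := List.mem_iff_get.1 (show (Sum.inl p : Itm Z) ∈ L0 by
            rw [hL0, List.mem_append]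
            exact .inl (List.mem_map_of_mem hp))
          have h1 : σ z ∣ αt S σ (L0.get i) (ε i) := by
            rw [hi]
            simp only [αt]
            refine Dvd.dvd.mul_right ?_ _
            rcases h with h | h
            · rw [h]; exact dvd_mul_right _ _
            · rw [h]; exact dvd_mul_left _ _
          refine Dvd.dvd.mul_right (Dvd.dvd.mul_left ?_ _) _
          exact h1.trans (Finset.dvd_prod_of_mem (fun i => αt S σ (L0.get i) (ε i))
            (Finset.mem_univ i))
        · obtain ⟨i, hi⟩ := List.mem_iff_get.1 (show (Sum.inr z : Itm Z) ∈ L0 by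
            rw [hL0, List.mem_append]
            exact .inr (List.mem_map_of_mem (Multiset.mem_toList.2 h)))
          have h1 : σ z ∣ βt σ (L0.get i) (ε i) := by
            rw [hi]
            simp only [βt]
            split_ifs
            · exact dvd_rfl
            · exact dvd_pow_self _ two_ne_zero
          refine Dvd.dvd.mul_left ?_ _
          exact h1.trans (Finset.dvd_prod_of_mem (fun i => βt σ (L0.get i) (ε i))
            (Finset.mem_univ i))
      · have hzS : z ∈ T := by
          rw [hT, mem_filter, Set.Finite.mem_toFinset]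
          exact ⟨hdz, ho⟩
        refine Dvd.dvd.mul_right (Dvd.dvd.mul_right ?_ _) _
        exact Finset.dvd_prod_of_mem (fun z : Z => σ z) hzS
    · have hiff : ∀ (ε : Fin L0.length → Bool) (x : A), IsCoprime x (α ε * β ε) ↔
          IsCoprime x bg ∧ ∀ i, Kt σ x (L0.get i) := by
        intro ε x
        show IsCoprime x ((bg * ∏ i, αt S σ (L0.get i) (ε i)) * ∏ i, βt σ (L0.get i) (ε i)) ↔ _
        rw [IsCoprime.mul_right_iff, IsCoprime.mul_right_iff, and_assoc]
        refine and_congr_right fun _ => ?_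
        constructor
        · rintro ⟨h1, h2⟩ i
          rw [IsCoprime.prod_right_iff] at h1 h2
          exact (cop_iff hσ x _ _).1 ⟨h1 i (mem_univ i), h2 i (mem_univ i)⟩
        · intro h
          exact ⟨IsCoprime.prod_right fun i _ => ((cop_iff hσ x _ _).2 (h i)).1,
            IsCoprime.prod_right fun i _ => ((cop_iff hσ x _ _).2 (h i)).2⟩
      intro ε ε' x
      rw [hiff, hiff]
  intro M v hM
  have h1 := hs M v hM
  unfold sn at h1
  rcases div_eq_zero_iff.1 h1 with h | h
  · exact h
  · exfalso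
    rcases mul_eq_zero.1 h with h | h
    · rw [Multiset.prod_eq_zero_iff, Multiset.mem_map] at h
      obtain ⟨z, _, hz⟩ := h
      exact dk_ne hσ z (by exact_mod_cast hz)
    · exact dk_ne hσ v (by exact_mod_cast h)

end Pool.Agent.T9h89.GG
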